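import Pool.Agent.W78.EC.Defs2

/-!
# Subadditivity of the entropy for lists of variable length
-/

set_option autoImplicit false

namespace Pool.Agent.W52.EC

open Finset
open Pool.Agent.W78.EC Pool.Agent.W78.GA

open Classical in
/-- the weight of the fibre of `D` through `ω` -/
noncomputable def PP {Ω A : Type} (s : Finset Ω) (w : Ω → ℝ) (D : Ω → A) (ω : Ω) : ℝ :=
  ∑ ω' ∈ s.filter (fun ω' => D ω' = D ω), w ω'

theorem ent_eq {Ω A : Type} (s : Finset Ω) (w : Ω → ℝ) (D : Ω → A) :
    ent s w D = -∑ ω ∈ s, w ω * Real.log (PP s w D ω) := by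
  classical
  unfold ent
  rw [← sum_neg_distrib, ← sum_fiberwise_of_maps_to (s := s) (t := s.image D) (g := D)
    (fun ω hω => mem_image_of_mem D hω)]
  refine sum_congr rfl fun a _ => ?_
  rw [sum_neg_distrib, Real.negMulLog, neg_mul, sum_mul]
  congr 1
  refine sum_congr rfl fun ω hω => ?_
  have h2 : D ω = a := (mem_filter.1 hω).2
  unfold PP
  rw [h2]

theorem PP_congr {Ω A B : Type} (s : Finset Ω) (w : Ω → ℝ) (D : Ω → A) (E : Ω → B) (ω : Ω)
    (h : ∀ ω' ∈ s, D ω' = D ω ↔ E ω' = E ω) : PP s w D ω = PP s w E ω := by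
  classical
  unfold PP
  exact sum_congr (filter_congr h) fun _ _ => rfl

theorem cE_eq {Ω A B : Type} (s : Finset Ω) (w : Ω → ℝ) (D : Ω → A) (Y : Ω → B) :
    cE s w D Y = ∑ ω ∈ s, w ω * (Real.log (PP s w Y ω) -
      Real.log (PP s w (fun ω => (D ω, Y ω)) ω)) := by
  unfold cE
  rw [ent_eq, ent_eq]
  simp only [mul_sub, sum_sub_distrib]
  ring

theorem tup (h : S_CE) : S_TUP := by
  classical
  intro Ω Ω' Q D Y Y' s s' w w' par ix N Qf Yf Df Yf' ch Φ hw hs' hs hY'
  -- the bound for the lengths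
  obtain ⟨M, hM⟩ : ∃ M : ℕ, ∀ ω ∈ s, N (Qf ω) ≤ M :=
    ⟨s.sup fun ω => N (Qf ω), fun ω hω => le_sup (f := fun ω => N (Qf ω)) hω⟩
  have hw' : ∀ c ∈ s', 0 ≤ w' c := by
    intro c hc
    rw [(hs' c hc).2.2.2]
    exact hw _ (hs' c hc).1
  set Z : Ω → Q × Y := fun ω => (Qf ω, Yf ω) with hZ
  set G : ℕ → Ω → Option D := fun n ω => if n < N (Qf ω) then some (Df (ch ω n)) else none with hG
  set Ls : ℕ → Ω → List D :=
    fun n ω => (List.range (min n (N (Qf ω)))).map (fun j => Df (ch ω j)) with hLs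
  set U : Ω' → Q × Y × ℕ := fun c => (Qf (par c), Yf (par c), ix c) with hU
  -- the last step
  have step3 : cE s' w' Df U ≤ cE s' w' Df Yf' := by
    have h5 := (h Ω' D (Q × Y × ℕ) Y' s' w' Df U Yf' hw').2.2.2.2.1
    exact h5 (fun u => Φ u.1 u.2.2 u.2.1) (fun c hc => hY' c hc)
  -- the first step
  have step1 : cE s w (fun ω => (List.range (N (Qf ω))).map (fun j => Df (ch ω j))) Z ≤
      cE s w (Ls M) Z := by
    have h4 := (h Ω (List D) (Q × Y) (List D) s w (Ls M) Z
      (fun ω => (List.range (N (Qf ω))).map (fun j => Df (ch ω j))) hw).2.2.2.1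
    refine h4 (fun a _ => a) fun ω hω => ?_
    simp only [hLs]
    rw [min_eq_right (hM ω hω)]
  -- induction
  have step2 : ∀ n, cE s w (Ls n) Z ≤ ∑ k ∈ range n, cE s w (G k) Z := by
    intro n
    induction n with
    | zero =>
      rw [sum_range_zero]
      have h6 := (h Ω (List D) (Q × Y) (List D) s w (Ls 0) Z (Ls 0) hw).2.2.2.2.2.1 1 le_rfl
        ⟨{[]}, by simp, fun ω _ => by simp [hLs]⟩
      simpa using h6
    | succ n ih =>
      rw [sum_range_succ]
      have h4 := (h Ω (Option D × List D) (Q × Y) (List D) s w (fun ω => (G n ω, Ls n ω)) Z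
        (Ls (n + 1)) hw).2.2.2.1
        (fun a _ => match a.1 with
          | some d => a.2 ++ [d]
          | none => a.2) (fun ω _ => by
            simp only [hG, hLs]
            by_cases hn : n < N (Qf ω)
            · rw [if_pos hn, min_eq_left (show n + 1 ≤ N (Qf ω) by omega),
                min_eq_left (show n ≤ N (Qf ω) by omega), List.range_succ, List.map_append]
              rfl
            · rw [if_neg hn, min_eq_right (show N (Qf ω) ≤ n + 1 by omega),
                min_eq_right (show N (Qf ω) ≤ n by omega)])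
      have h3 := (h Ω (Option D) (Q × Y) (List D) s w (G n) Z (Ls n) hw).2.2.1
      have h5 := (h Ω (Option D) (List D × (Q × Y)) (Q × Y) s w (G n) (fun ω => (Ls n ω, Z ω)) Z
        hw).2.2.2.2.1 Prod.snd (fun ω _ => rfl)
      linarith
  -- sums over the fibres
  have key : ∀ (n : ℕ) (p : Ω → Prop) (p' : Ω' → Prop),
      (∀ ω ∈ s, p ω → n < N (Qf ω) ∧ p' (ch ω n)) → (∀ c ∈ s', p' c → ix c = n ∧ p (par c)) →
      ∑ ω ∈ s.filter p, w ω = ∑ c ∈ s'.filter p', w' c := by
    intro n p p' h1 h2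
    refine sum_nbij' (fun ω => ch ω n) par ?_ ?_ ?_ ?_ ?_
    · intro ω hω
      rw [mem_filter] at hω ⊢
      obtain ⟨h3, h4⟩ := h1 ω hω.1 hω.2
      exact ⟨(hs ω hω.1 n h3).1, h4⟩
    · intro c hc
      rw [mem_filter] at hc ⊢
      exact ⟨(hs' c hc.1).1, (h2 c hc.1 hc.2).2⟩
    · intro ω hω
      rw [mem_filter] at hω
      exact (hs ω hω.1 n (h1 ω hω.1 hω.2).1).2.1
    · intro c hc
      rw [mem_filter] at hc
      have h3 := (hs' c hc.1).2.2.1
      rw [(h2 c hc.1 hc.2).1] at h3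
      exact h3
    · intro ω hω
      rw [mem_filter] at hω
      obtain ⟨h3, h4, _⟩ := hs ω hω.1 n (h1 ω hω.1 hω.2).1
      rw [(hs' _ h3).2.2.2, h4]
  have hUch : ∀ ω ∈ s, ∀ n < N (Qf ω), U (ch ω n) = (Qf ω, Yf ω, n) := by
    intro ω hω n hn
    obtain ⟨_, h4, h5⟩ := hs ω hω n hn
    simp only [hU, h4, h5]
  have k1 : ∀ ω ∈ s, ∀ n < N (Qf ω), PP s w Z ω = PP s' w' U (ch ω n) := by
    intro ω hω n hn
    unfold PP
    have hu := hUch ω hω n hn
    refine key n _ _ ?_ ?_
    · intro ω' hω' hz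
      have hz1 : Qf ω' = Qf ω := congrArg Prod.fst hz
      have hz2 : Yf ω' = Yf ω := congrArg Prod.snd hz
      have hn' : n < N (Qf ω') := by rw [hz1]; exact hn
      refine ⟨hn', ?_⟩
      rw [hu, hUch ω' hω' n hn', hz1, hz2]
    · intro c hc hz
      rw [hu] at hz
      have hz1 : Qf (par c) = Qf ω := congrArg Prod.fst hz
      have hz2 : Yf (par c) = Yf ω := congrArg (fun u => u.2.1) hz
      have hz3 : ix c = n := congrArg (fun u => u.2.2) hz
      exact ⟨hz3, Prod.ext hz1 hz2⟩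
  have k2 : ∀ ω ∈ s, ∀ n < N (Qf ω), PP s w (fun ω => (G n ω, Z ω)) ω =
      PP s' w' (fun c => (Df c, U c)) (ch ω n) := by
    intro ω hω n hn
    unfold PP
    have hu := hUch ω hω n hn
    refine key n _ _ ?_ ?_
    · intro ω' hω' hz
      have hz0 : G n ω' = G n ω := congrArg Prod.fst hz
      have hz1 : Qf ω' = Qf ω := congrArg (fun u => u.2.1) hz
      have hz2 : Yf ω' = Yf ω := congrArg (fun u => u.2.2) hz
      have hn' : n < N (Qf ω') := by rw [hz1]; exact hn
      refine ⟨hn', ?_⟩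
      simp only [hG, if_pos hn, if_pos hn', Option.some.injEq] at hz0
      change (Df (ch ω' n), U (ch ω' n)) = (Df (ch ω n), U (ch ω n))
      rw [hu, hUch ω' hω' n hn', hz1, hz2, hz0]
    · intro c hc hz
      change (Df c, U c) = (Df (ch ω n), U (ch ω n)) at hz
      rw [hu] at hz
      have hz0 : Df c = Df (ch ω n) := congrArg Prod.fst hz
      have hz1 : Qf (par c) = Qf ω := congrArg (fun u => u.2.1) hz
      have hz2 : Yf (par c) = Yf ω := congrArg (fun u => u.2.2.1) hz
      have hz3 : ix c = n := congrArg (fun u => u.2.2.2) hz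
      refine ⟨hz3, ?_⟩
      have hn' : n < N (Qf (par c)) := by rw [hz1]; exact hn
      have h7 := (hs' c hc).2.2.1
      rw [hz3] at h7
      have h8 : G n (par c) = G n ω := by
        simp only [hG, if_pos hn, if_pos hn', h7, hz0]
      exact Prod.ext h8 (Prod.ext hz1 hz2)
  have k3 : ∀ ω ∈ s, ∀ n, ¬ n < N (Qf ω) →
      PP s w (fun ω => (G n ω, Z ω)) ω = PP s w Z ω := by
    intro ω hω n hn
    refine PP_congr s w _ _ ω fun ω' hω' => ?_
    constructor
    · intro hz
      exact congrArg Prod.snd hz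
    · intro hz
      have hz1 : Qf ω' = Qf ω := congrArg Prod.fst hz
      have hn' : ¬ n < N (Qf ω') := by rw [hz1]; exact hn
      have h8 : G n ω' = G n ω := by
        simp only [hG, if_neg hn, if_neg hn']
      exact Prod.ext h8 hz
  set hh : Ω' → ℝ := fun c => w' c * (Real.log (PP s' w' U c) -
      Real.log (PP s' w' (fun c => (Df c, U c)) c)) with hhh
  have step4 : ∑ k ∈ range M, cE s w (G k) Z = cE s' w' Df U := by
    rw [cE_eq s' w' Df U]
    have h1 : ∀ k, cE s w (G k) Z = ∑ ω ∈ s, if k < N (Qf ω) then hh (ch ω k) else 0 := by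
      intro k
      rw [cE_eq]
      refine sum_congr rfl fun ω hω => ?_
      by_cases hk : k < N (Qf ω)
      · rw [if_pos hk, k1 ω hω k hk, k2 ω hω k hk]
        obtain ⟨h3, h4, _⟩ := hs ω hω k hk
        simp only [hhh]
        rw [(hs' _ h3).2.2.2, h4]
      · rw [if_neg hk, k3 ω hω k hk, sub_self, mul_zero]
    rw [sum_congr rfl fun k _ => h1 k, ← sum_product', ← sum_filter]
    refine sum_nbij' (fun x => ch x.2 x.1) (fun c => (ix c, par c)) ?_ ?_ ?_ ?_ ?_
    · rintro ⟨n, ω⟩ hx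
      rw [mem_filter, mem_product] at hx
      exact (hs ω hx.1.2 n hx.2).1
    · intro c hc
      obtain ⟨h3, h4, h5, _⟩ := hs' c hc
      rw [mem_filter, mem_product, mem_range]
      exact ⟨⟨h4.trans_le (hM _ h3), h3⟩, h4⟩
    · rintro ⟨n, ω⟩ hx
      rw [mem_filter, mem_product] at hx
      obtain ⟨_, h4, h5⟩ := hs ω hx.1.2 n hx.2
      simp only [h4, h5]
    · intro c hc
      exact (hs' c hc).2.2.1
    · rintro ⟨n, ω⟩ _
      rfl
  exact (step1.trans (step2 M)).trans (step4.le.trans step3)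

end Pool.Agent.W52.EC
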