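import Pool.Agent.W78.EC.Defs2

/-!
# Summation by parts in two variables, and the differences of the weight
-/

set_option autoImplicit false

namespace Pool.Agent.W52.EC

open Finset
open Pool.Agent.W78.EC Pool.Agent.W78.GA

theorem abel1 (Q : ℕ) (b Ψ : ℕ → ℝ) (K : ℕ) (hK : Q ≤ K) :
    ∑ m ∈ Ioc Q (K + 1), b m * Ψ m = (∑ m ∈ Ioc Q (K + 1), b m) * Ψ (K + 1) -
      ∑ t ∈ Ioc Q K, (∑ m ∈ Ioc Q t, b m) * (Ψ (t + 1) - Ψ t) := by
  induction K, hK using Nat.le_induction with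
  | base => simp
  | succ K hK ih =>
    rw [sum_Ioc_succ_top (show Q ≤ K + 1 by omega), ih,
      sum_Ioc_succ_top (show Q ≤ K + 1 by omega) (fun m => b m),
      sum_Ioc_succ_top hK (fun t => (∑ m ∈ Ioc Q t, b m) * (Ψ (t + 1) - Ψ t))]
    ring

theorem abel : S_ABEL := by
  intro Q a Ψ L hQ hL hΨ E hE
  obtain ⟨K, hK⟩ : ∃ K, 2 * Q = K + 1 := ⟨2 * Q - 1, by omega⟩
  have hQK : Q ≤ K := by omega
  have hQ0 : (0 : ℝ) < Q := by
    have : 0 < Q := hQ
    exact_mod_cast this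
  have hsub : Ioc Q K ⊆ Ioc Q (K + 1) := Ioc_subset_Ioc_right (by omega)
  rw [hK] at hΨ ⊢
  have hmem : K + 1 ∈ Ioc Q (K + 1) := by
    rw [mem_Ioc]; omega
  have e1 : ∑ m ∈ Ioc Q (K + 1), ∑ n ∈ Ioc Q (K + 1), a m n * Ψ m n =
      E (K + 1) (K + 1) * Ψ (K + 1) (K + 1) -
        ∑ t ∈ Ioc Q K, E t (K + 1) * (Ψ (t + 1) (K + 1) - Ψ t (K + 1)) -
        ∑ u ∈ Ioc Q K, (E (K + 1) u * (Ψ (K + 1) (u + 1) - Ψ (K + 1) u) -
          ∑ t ∈ Ioc Q K, E t u *
            ((Ψ (t + 1) (u + 1) - Ψ (t + 1) u) - (Ψ t (u + 1) - Ψ t u))) := by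
    have h1 : ∀ m, ∑ n ∈ Ioc Q (K + 1), a m n * Ψ m n =
        (∑ n ∈ Ioc Q (K + 1), a m n) * Ψ m (K + 1) -
          ∑ u ∈ Ioc Q K, (∑ n ∈ Ioc Q u, a m n) * (Ψ m (u + 1) - Ψ m u) :=
      fun m => abel1 Q (a m) (Ψ m) K hQK
    rw [sum_congr rfl fun m _ => h1 m, sum_sub_distrib, sum_comm]
    congr 1
    · rw [abel1 Q (fun m => ∑ n ∈ Ioc Q (K + 1), a m n) (fun m => Ψ m (K + 1)) K hQK]
      simp only [hE]
    · refine sum_congr rfl fun u _ => ?_
      rw [abel1 Q (fun m => ∑ n ∈ Ioc Q u, a m n) (fun m => Ψ m (u + 1) - Ψ m u) K hQK]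
      simp only [hE]
  rw [e1]
  have b1 : |E (K + 1) (K + 1) * Ψ (K + 1) (K + 1)| ≤ L * |E (K + 1) (K + 1)| := by
    rw [abs_mul, mul_comm]
    exact mul_le_mul_of_nonneg_right (hΨ _ _ hmem hmem).1 (abs_nonneg _)
  have b2 : |∑ t ∈ Ioc Q K, E t (K + 1) * (Ψ (t + 1) (K + 1) - Ψ t (K + 1))| ≤
      L / Q * ∑ t ∈ Ioc Q (K + 1), |E t (K + 1)| := by
    calc |∑ t ∈ Ioc Q K, E t (K + 1) * (Ψ (t + 1) (K + 1) - Ψ t (K + 1))|
        ≤ ∑ t ∈ Ioc Q K, |E t (K + 1) * (Ψ (t + 1) (K + 1) - Ψ t (K + 1))| :=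
          abs_sum_le_sum_abs _ _
      _ ≤ ∑ t ∈ Ioc Q K, L / Q * |E t (K + 1)| := by
          refine sum_le_sum fun t ht => ?_
          rw [abs_mul, mul_comm]
          exact mul_le_mul_of_nonneg_right (hΨ _ _ (hsub ht) hmem).2.1 (abs_nonneg _)
      _ ≤ ∑ t ∈ Ioc Q (K + 1), L / Q * |E t (K + 1)| :=
          sum_le_sum_of_subset_of_nonneg hsub fun _ _ _ => by positivity
      _ = _ := by rw [mul_sum]
  have b3 : |∑ u ∈ Ioc Q K, E (K + 1) u * (Ψ (K + 1) (u + 1) - Ψ (K + 1) u)| ≤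
      L / Q * ∑ t ∈ Ioc Q (K + 1), |E (K + 1) t| := by
    calc |∑ u ∈ Ioc Q K, E (K + 1) u * (Ψ (K + 1) (u + 1) - Ψ (K + 1) u)|
        ≤ ∑ u ∈ Ioc Q K, |E (K + 1) u * (Ψ (K + 1) (u + 1) - Ψ (K + 1) u)| :=
          abs_sum_le_sum_abs _ _
      _ ≤ ∑ u ∈ Ioc Q K, L / Q * |E (K + 1) u| := by
          refine sum_le_sum fun t ht => ?_
          rw [abs_mul, mul_comm]
          exact mul_le_mul_of_nonneg_right (hΨ _ _ hmem (hsub ht)).2.2.1 (abs_nonneg _)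
      _ ≤ ∑ u ∈ Ioc Q (K + 1), L / Q * |E (K + 1) u| :=
          sum_le_sum_of_subset_of_nonneg hsub fun _ _ _ => by positivity
      _ = _ := by rw [mul_sum]
  have b4 : |∑ u ∈ Ioc Q K, ∑ t ∈ Ioc Q K, E t u *
      ((Ψ (t + 1) (u + 1) - Ψ (t + 1) u) - (Ψ t (u + 1) - Ψ t u))| ≤
      L / (Q : ℝ) ^ 2 * ∑ t ∈ Ioc Q (K + 1), ∑ u ∈ Ioc Q (K + 1), |E t u| := by
    calc |∑ u ∈ Ioc Q K, ∑ t ∈ Ioc Q K, E t u *
          ((Ψ (t + 1) (u + 1) - Ψ (t + 1) u) - (Ψ t (u + 1) - Ψ t u))|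
        ≤ ∑ u ∈ Ioc Q K, ∑ t ∈ Ioc Q K, |E t u *
          ((Ψ (t + 1) (u + 1) - Ψ (t + 1) u) - (Ψ t (u + 1) - Ψ t u))| :=
          (abs_sum_le_sum_abs _ _).trans (sum_le_sum fun _ _ => abs_sum_le_sum_abs _ _)
      _ ≤ ∑ u ∈ Ioc Q K, ∑ t ∈ Ioc Q K, L / (Q : ℝ) ^ 2 * |E t u| := by
          refine sum_le_sum fun u hu => sum_le_sum fun t ht => ?_
          rw [abs_mul, mul_comm]
          refine mul_le_mul_of_nonneg_right ?_ (abs_nonneg _)
          have h := (hΨ t u (hsub ht) (hsub hu)).2.2.2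
          have e : (Ψ (t + 1) (u + 1) - Ψ (t + 1) u) - (Ψ t (u + 1) - Ψ t u) =
            Ψ (t + 1) (u + 1) - Ψ (t + 1) u - Ψ t (u + 1) + Ψ t u := by ring
          rw [e]
          exact h
      _ ≤ ∑ u ∈ Ioc Q (K + 1), ∑ t ∈ Ioc Q (K + 1), L / (Q : ℝ) ^ 2 * |E t u| := by
          refine (sum_le_sum fun u _ => sum_le_sum_of_subset_of_nonneg hsub
            fun _ _ _ => by positivity).trans ?_
          exact sum_le_sum_of_subset_of_nonneg hsub
            fun _ _ _ => sum_nonneg fun _ _ => by positivity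
      _ = _ := by
          rw [sum_comm, mul_sum]
          simp only [mul_sum]
  rw [sum_sub_distrib]
  refine le_trans ?_ (le_of_eq (show
    L * |E (K + 1) (K + 1)| + (L / Q * ∑ t ∈ Ioc Q (K + 1), |E t (K + 1)|) +
      ((L / Q * ∑ t ∈ Ioc Q (K + 1), |E (K + 1) t|) +
      (L / (Q : ℝ) ^ 2 * ∑ t ∈ Ioc Q (K + 1), ∑ u ∈ Ioc Q (K + 1), |E t u|)) = _ from ?_))
  · refine (abs_sub _ _).trans (add_le_add ?_ ?_)
    · exact (abs_sub _ _).trans (add_le_add b1 b2)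
    · exact (abs_sub _ _).trans (add_le_add b3 b4)
  · rw [sum_add_distrib]
    ring

/-! ### The weight -/

theorem nmq (m₁ m₂ : ℕ) (w₁ w₂ : Gi) : (nm ((m₂ : Gi) * w₁ - (m₁ : Gi) * w₂) : ℝ) =
    (m₂ : ℝ) ^ 2 * nm w₁ - 2 * m₁ * m₂ * (ip w₁ w₂ : ℝ) + (m₁ : ℝ) ^ 2 * nm w₂ := by
  have hD : (0 : ℤ) ^ 2 < 4 * 1 := by norm_num
  rw [nm_castR hD, nm_castR hD, nm_castR hD]
  unfold ip
  simp
  ring

/-- the square of the positive part -/
noncomputable def sp (x : ℝ) : ℝ := (max 0 x) ^ 2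

theorem psi_eq (x : ℝ) : psi x = sp (4 - x) := rfl

theorem sp_nonneg (x : ℝ) : 0 ≤ sp x := sq_nonneg _

theorem sp_le {x B : ℝ} (h : x ≤ B) (hB : 0 ≤ B) : sp x ≤ B ^ 2 :=
  pow_le_pow_left₀ (le_max_left _ _) (max_le hB h) 2

theorem sp_diff {x y B : ℝ} (hx : x ≤ B) (hy : y ≤ B) (hB : 0 ≤ B) :
    |sp x - sp y| ≤ 2 * B * |x - y| := by
  unfold sp
  have h1 : (max 0 x) ^ 2 - (max 0 y) ^ 2 = (max 0 x + max 0 y) * (max 0 x - max 0 y) := by ring
  rw [h1, abs_mul]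
  have h2 : |max 0 x + max 0 y| ≤ 2 * B := by
    rw [abs_of_nonneg (by positivity)]
    have := max_le hB hx
    have := max_le hB hy
    linarith
  have h3 : |max 0 x - max 0 y| ≤ |x - y| := by
    rw [max_comm 0 x, max_comm 0 y]
    exact abs_max_sub_max_le_abs x y 0
  exact mul_le_mul h2 h3 (abs_nonneg _) (by positivity)

theorem sp_two_pos (x a h : ℝ) (ha : 0 ≤ a) (hh : 0 ≤ h) :
    0 ≤ sp (x + h + a) - sp (x + h) - sp (x + a) + sp x ∧
      sp (x + h + a) - sp (x + h) - sp (x + a) + sp x ≤ 2 * a * h := by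
  unfold sp
  rcases le_total 0 x with h0 | h0
  · rw [max_eq_right h0, max_eq_right (by linarith : (0 : ℝ) ≤ x + h + a),
      max_eq_right (by linarith : (0 : ℝ) ≤ x + h), max_eq_right (by linarith : (0 : ℝ) ≤ x + a)]
    constructor
    · nlinarith [mul_nonneg ha hh]
    · nlinarith [mul_nonneg ha hh]
  · rw [max_eq_left h0]
    rcases le_total 0 (x + h + a) with h1 | h1
    · rw [max_eq_right h1]
      rcases le_total 0 (x + h) with h2 | h2
      · rw [max_eq_right h2]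
        rcases le_total 0 (x + a) with h3 | h3
        · rw [max_eq_right h3]
          constructor
          · nlinarith [mul_nonneg h2 h3, mul_nonneg (neg_nonneg.2 h0) h1]
          · nlinarith [mul_nonneg h2 h3, mul_nonneg (neg_nonneg.2 h0) h1, sq_nonneg x]
        · rw [max_eq_left h3]
          constructor
          · nlinarith [mul_nonneg h2 ha, sq_nonneg a]
          · nlinarith [mul_nonneg h2 ha, sq_nonneg a, mul_nonneg ha (neg_nonneg.2 h3)]
      · rw [max_eq_left h2]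
        rcases le_total 0 (x + a) with h3 | h3
        · rw [max_eq_right h3]
          constructor
          · nlinarith [mul_nonneg h3 hh, sq_nonneg h]
          · nlinarith [mul_nonneg h3 hh, sq_nonneg h, mul_nonneg hh (neg_nonneg.2 h2)]
        · rw [max_eq_left h3]
          constructor
          · nlinarith [sq_nonneg (x + h + a)]
          · have h4 : x + h + a ≤ a := by linarith
            have h5 : x + h + a ≤ h := by linarith
            nlinarith [mul_nonneg ha hh, mul_nonneg h1 (sub_nonneg.2 h5),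
              mul_nonneg hh (sub_nonneg.2 h4)]
    · rw [max_eq_left h1, max_eq_left (by linarith : x + h ≤ 0),
        max_eq_left (by linarith : x + a ≤ 0)]
      constructor
      · norm_num
      · nlinarith [mul_nonneg ha hh]

theorem sp_two (x a h : ℝ) :
    |sp (x + h + a) - sp (x + h) - sp (x + a) + sp x| ≤ 2 * |a| * |h| := by
  rcases le_total 0 a with ha | ha
  · rcases le_total 0 h with hh | hh
    · obtain ⟨h1, h2⟩ := sp_two_pos x a h ha hh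
      rw [abs_of_nonneg h1, abs_of_nonneg ha, abs_of_nonneg hh]
      exact h2
    · obtain ⟨h1, h2⟩ := sp_two_pos (x + h) a (-h) ha (by linarith)
      have e1 : x + h + -h + a = x + a := by ring
      have e2 : x + h + -h = x := by ring
      rw [e1, e2] at h1 h2
      rw [abs_of_nonneg ha, abs_of_nonpos hh, abs_le]
      constructor <;> nlinarith
  · rcases le_total 0 h with hh | hh
    · obtain ⟨h1, h2⟩ := sp_two_pos (x + a) (-a) h (by linarith) hh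
      have e1 : x + a + h + -a = x + h := by ring
      have e2 : x + a + -a = x := by ring
      have e3 : x + a + h = x + h + a := by ring
      rw [e1, e2, e3] at h1 h2
      rw [abs_of_nonpos ha, abs_of_nonneg hh, abs_le]
      constructor <;> nlinarith
    · obtain ⟨h1, h2⟩ := sp_two_pos (x + h + a) (-a) (-h) (by linarith) (by linarith)
      have e1 : x + h + a + -h + -a = x := by ring
      have e2 : x + h + a + -h = x + a := by ring
      have e3 : x + h + a + -a = x + h := by ring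
      rw [e1, e2, e3] at h1 h2
      rw [abs_of_nonpos ha, abs_of_nonpos hh, abs_le]
      constructor <;> nlinarith

theorem psid : S_PSID := by
  refine ⟨250, by norm_num, ?_⟩
  intro Q X L w₁ w₂ hQ hX hL hw1 hw2 hdt Ψ hΨ m n hm hn
  have hQ1 : (1 : ℝ) ≤ Q := by exact_mod_cast hQ
  have hQ0 : (0 : ℝ) < Q := by linarith
  have hX0 : (0 : ℝ) < X := by linarith
  have hL0 : (0 : ℝ) < L := by linarith
  have hD0 : (0 : ℝ) < (dt w₁ w₂ : ℝ) := lt_of_lt_of_le (by positivity) hdt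
  -- bound for the inner product
  have hDD : (0 : ℤ) ^ 2 < 4 * 1 := by norm_num
  have hip : (nm w₁ : ℝ) * nm w₂ = (ip w₁ w₂ : ℝ) ^ 2 + (dt w₁ w₂ : ℝ) ^ 2 := by
    have h := ip_dt hDD w₁ w₂
    have h' : (nm w₁ : ℤ) * nm w₂ = ip w₁ w₂ ^ 2 + dt w₁ w₂ ^ 2 := by
      rw [h]; ring
    exact_mod_cast h'
  have hP : |(ip w₁ w₂ : ℝ)| ≤ X := by
    apply abs_le_of_sq_le_sq _ hX0.le
    have h1 : (nm w₁ : ℝ) * nm w₂ ≤ X * X := mul_le_mul hw1 hw2 (Nat.cast_nonneg _) hX0.le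
    nlinarith [sq_nonneg (dt w₁ w₂ : ℝ)]
  -- coefficients
  generalize hA : (nm w₁ : ℝ) / ((dt w₁ w₂ : ℝ) ^ 2 * X) = A
  generalize hB : (ip w₁ w₂ : ℝ) / ((dt w₁ w₂ : ℝ) ^ 2 * X) = B
  generalize hC : (nm w₂ : ℝ) / ((dt w₁ w₂ : ℝ) ^ 2 * X) = C
  have hden : 0 < (dt w₁ w₂ : ℝ) ^ 2 * X := by positivity
  have hinv : X / ((dt w₁ w₂ : ℝ) ^ 2 * X) ≤ L ^ 2 / (Q : ℝ) ^ 2 := by
    have h1 : X / ((dt w₁ w₂ : ℝ) ^ 2 * X) = 1 / (dt w₁ w₂ : ℝ) ^ 2 := by
      field_simp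
    rw [h1, div_le_div_iff₀ (by positivity) (by positivity), one_mul]
    have h2 : (Q : ℝ) ≤ L * (dt w₁ w₂ : ℝ) := by
      rw [div_le_iff₀ hL0] at hdt
      linarith
    calc (Q : ℝ) ^ 2 ≤ (L * (dt w₁ w₂ : ℝ)) ^ 2 := pow_le_pow_left₀ hQ0.le h2 2
      _ = L ^ 2 * (dt w₁ w₂ : ℝ) ^ 2 := by ring
  set e : ℝ := L ^ 2 / (Q : ℝ) ^ 2 with he
  have he0 : 0 < e := by positivity
  have hA0 : 0 ≤ A := by rw [← hA]; positivity
  have hC0 : 0 ≤ C := by rw [← hC]; positivity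
  have hAe : A ≤ e := by
    rw [← hA]
    exact (div_le_div_of_nonneg_right hw1 hden.le).trans hinv
  have hCe : C ≤ e := by
    rw [← hC]
    exact (div_le_div_of_nonneg_right hw2 hden.le).trans hinv
  have hBe : |B| ≤ e := by
    rw [← hB, abs_div, abs_of_pos hden]
    exact (div_le_div_of_nonneg_right hP hden.le).trans hinv
  -- the quadratic form
  have hq : ∀ m₁ m₂ : ℕ, Ψ m₁ m₂ =
      sp (4 - (A * (m₂ : ℝ) ^ 2 - 2 * B * m₁ * m₂ + C * (m₁ : ℝ) ^ 2)) := by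
    intro m₁ m₂
    rw [hΨ, nmq, psi_eq, ← hA, ← hB, ← hC]
    congr 2
    ring
  have hq0 : ∀ m₁ m₂ : ℕ, 0 ≤ A * (m₂ : ℝ) ^ 2 - 2 * B * m₁ * m₂ + C * (m₁ : ℝ) ^ 2 := by
    intro m₁ m₂
    have h1 : A * (m₂ : ℝ) ^ 2 - 2 * B * m₁ * m₂ + C * (m₁ : ℝ) ^ 2 =
        (nm ((m₂ : Gi) * w₁ - (m₁ : Gi) * w₂) : ℝ) / ((dt w₁ w₂ : ℝ) ^ 2 * X) := by
      rw [nmq, ← hA, ← hB, ← hC]
      ring
    rw [h1]
    positivity
  rw [mem_Ioc] at hm hn
  have hm2 : (m : ℝ) ≤ 2 * Q := by exact_mod_cast hm.2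
  have hn2 : (n : ℝ) ≤ 2 * Q := by exact_mod_cast hn.2
  have hm0 : (0 : ℝ) ≤ m := Nat.cast_nonneg m
  have hn0 : (0 : ℝ) ≤ n := Nat.cast_nonneg n
  have hL4 : (1 : ℝ) ≤ L ^ 4 := one_le_pow₀ hL
  have hL24 : L ^ 2 ≤ L ^ 4 := pow_le_pow_right₀ hL (by norm_num)
  have heQ : e * (Q : ℝ) ^ 2 = L ^ 2 := by
    rw [he]; field_simp
  have q00 := hq0 m n
  have q10 := hq0 (m + 1) n
  have q01 := hq0 m (n + 1)
  have q11 := hq0 (m + 1) (n + 1)
  rw [hq, hq, hq, hq]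
  push_cast at q10 q01 q11 ⊢
  generalize hx00 : A * (n : ℝ) ^ 2 - 2 * B * m * n + C * (m : ℝ) ^ 2 = x00 at *
  generalize hx10 : A * (n : ℝ) ^ 2 - 2 * B * ((m : ℝ) + 1) * n + C * ((m : ℝ) + 1) ^ 2 = x10 at *
  generalize hx01 : A * ((n : ℝ) + 1) ^ 2 - 2 * B * m * ((n : ℝ) + 1) + C * (m : ℝ) ^ 2 = x01 at *
  generalize hx11 : A * ((n : ℝ) + 1) ^ 2 - 2 * B * ((m : ℝ) + 1) * ((n : ℝ) + 1) +
    C * ((m : ℝ) + 1) ^ 2 = x11 at *
  have hBn : |B * n| ≤ e * (2 * Q) := by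
    rw [abs_mul, abs_of_nonneg hn0]
    exact mul_le_mul hBe hn2 hn0 he0.le
  have hBm : |B * m| ≤ e * (2 * Q) := by
    rw [abs_mul, abs_of_nonneg hm0]
    exact mul_le_mul hBe hm2 hm0 he0.le
  have hCm : C * (2 * m + 1) ≤ e * (5 * Q) :=
    mul_le_mul hCe (by linarith) (by positivity) he0.le
  have hAn : A * (2 * n + 1) ≤ e * (5 * Q) :=
    mul_le_mul hAe (by linarith) (by positivity) he0.le
  have hCm0 : 0 ≤ C * (2 * m + 1) := by positivity
  have hAn0 : 0 ≤ A * (2 * n + 1) := by positivity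
  have heq2 : e * (2 * Q) = 2 * (e * Q) := by ring
  have heq5 : e * (5 * Q) = 5 * (e * Q) := by ring
  rw [heq5] at hCm hAn
  rw [abs_le, heq2] at hBn hBm
  have d1 : |x10 - x00| ≤ 9 * (e * Q) := by
    have : x10 - x00 = -2 * (B * n) + C * (2 * m + 1) := by
      rw [← hx10, ← hx00]; ring
    rw [this, abs_le]
    have := mul_pos he0 hQ0
    constructor <;> linarith
  have d2 : |x01 - x00| ≤ 9 * (e * Q) := by
    have : x01 - x00 = -2 * (B * m) + A * (2 * n + 1) := by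
      rw [← hx01, ← hx00]; ring
    rw [this, abs_le]
    have := mul_pos he0 hQ0
    constructor <;> linarith
  have d3 : x11 - x10 - x01 + x00 = -2 * B := by
    rw [← hx11, ← hx10, ← hx01, ← hx00]; ring
  have heQ1 : e * Q = L ^ 2 / Q := by
    rw [he]; field_simp
  have heQL : e * Q ≤ L ^ 2 := by
    rw [heQ1]
    exact div_le_self (by positivity) hQ1
  refine ⟨?_, ?_, ?_, ?_⟩
  · rw [abs_of_nonneg (sp_nonneg _)]
    have := sp_le (x := 4 - x00) (B := 4) (by linarith) (by norm_num)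
    linarith
  · have h1 := sp_diff (x := 4 - x10) (y := 4 - x00) (B := 4) (by linarith) (by linarith)
      (by norm_num)
    have h2 : |4 - x10 - (4 - x00)| = |x10 - x00| := by
      rw [← abs_neg]; congr 1; ring
    rw [h2] at h1
    calc |sp (4 - x10) - sp (4 - x00)| ≤ 2 * 4 * |x10 - x00| := h1
      _ ≤ 2 * 4 * (9 * (L ^ 2 / Q)) := by rw [← heQ1]; linarith
      _ = 72 * L ^ 2 / Q := by ring
      _ ≤ 250 * L ^ 4 / Q := by
          apply div_le_div_of_nonneg_right _ hQ0.le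
          linarith
  · have h1 := sp_diff (x := 4 - x01) (y := 4 - x00) (B := 4) (by linarith) (by linarith)
      (by norm_num)
    have h2 : |4 - x01 - (4 - x00)| = |x01 - x00| := by
      rw [← abs_neg]; congr 1; ring
    rw [h2] at h1
    calc |sp (4 - x01) - sp (4 - x00)| ≤ 2 * 4 * |x01 - x00| := h1
      _ ≤ 2 * 4 * (9 * (L ^ 2 / Q)) := by rw [← heQ1]; linarith
      _ = 72 * L ^ 2 / Q := by ring
      _ ≤ 250 * L ^ 4 / Q := by
          apply div_le_div_of_nonneg_right _ hQ0.le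
          linarith
  · have h1 := sp_two (4 - x00) (x00 - x01) (x00 - x10)
    have e1 : 4 - x00 + (x00 - x10) = 4 - x10 := by ring
    have e2 : 4 - x00 + (x00 - x01) = 4 - x01 := by ring
    have e3 : 4 - x10 + (x00 - x01) = 4 - x11 + (x11 - x10 - x01 + x00) := by ring
    rw [e1, e2, e3, d3] at h1
    rw [abs_sub_comm x00 x01, abs_sub_comm x00 x10] at h1
    have h2 := sp_diff (x := 4 - x11) (y := 4 - x11 + -2 * B) (B := 13 * L ^ 2)
      (by
        have := one_le_pow₀ hL (n := 2)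
        linarith) (by
        rw [← d3]
        rw [abs_le] at d2
        have := one_le_pow₀ hL (n := 2)
        linarith) (by positivity)
    have h3 : |4 - x11 - (4 - x11 + -2 * B)| = 2 * |B| := by
      have : 4 - x11 - (4 - x11 + -2 * B) = 2 * B := by ring
      rw [this, abs_mul]; norm_num
    rw [h3] at h2
    have h4 : 2 * |x01 - x00| * |x10 - x00| ≤ 162 * (e * Q) ^ 2 := by
      have := mul_le_mul d2 d1 (abs_nonneg _) (by positivity)
      have h10 : 9 * (e * Q) * (9 * (e * Q)) = 81 * (e * Q) ^ 2 := by ring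
      rw [h10] at this
      linarith
    have h5 : 2 * (13 * L ^ 2) * (2 * |B|) ≤ 52 * L ^ 2 * e := by
      have := mul_le_mul_of_nonneg_left hBe (show 0 ≤ 52 * L ^ 2 by positivity)
      linarith
    have h6 : (e * Q) ^ 2 = L ^ 4 / (Q : ℝ) ^ 2 := by
      rw [heQ1]; ring
    have h7 : L ^ 2 * e = L ^ 4 / (Q : ℝ) ^ 2 := by
      rw [he]; ring
    have h8 : 0 ≤ L ^ 4 / (Q : ℝ) ^ 2 := by positivity
    have h9 : sp (4 - x11) - sp (4 - x10) - sp (4 - x01) + sp (4 - x00) =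
        (sp (4 - x11 + -2 * B) - sp (4 - x10) - sp (4 - x01) + sp (4 - x00)) +
        (sp (4 - x11) - sp (4 - x11 + -2 * B)) := by ring
    rw [h9]
    calc _ ≤ |sp (4 - x11 + -2 * B) - sp (4 - x10) - sp (4 - x01) + sp (4 - x00)| +
          |sp (4 - x11) - sp (4 - x11 + -2 * B)| := abs_add_le _ _
      _ ≤ 162 * (L ^ 4 / (Q : ℝ) ^ 2) + 52 * (L ^ 4 / (Q : ℝ) ^ 2) := by
          rw [h6] at h4
          refine add_le_add (h1.trans h4) (h2.trans (h5.trans (le_of_eq ?_)))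
          rw [← h7]; ring
      _ ≤ 250 * (L ^ 4 / (Q : ℝ) ^ 2) := by linarith
      _ = 250 * L ^ 4 / (Q : ℝ) ^ 2 := by ring

end Pool.Agent.W52.EC
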